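import Pool.Agent.Q20.RG.Additive

/-!
# Record prime gaps around all the unknowns of additive congruences (Fermat, Waring)

Let `r ≥ 3`, `D ≥ 2` and `0 < ε ≤ 1`.  There is `κ > 0` such that for all large primes `p`, all integer
polynomials `f_1, …, f_r` of degrees between `2` and `D` with leading coefficients prime to `p`, and all
boxes `∏ [A_j, A_j + N_j)` in `[0, p)^r` with `∏ N_j ≥ p^(r/2 + 1 + ε)` and all `N_j ≥ p^ε`, at least
`(∏ N_j) p^(-1 - ε)` of the solutions of

`f_1(z_1) + … + f_r(z_r) = 0` modulo `p`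

in the box (there are about `(∏ N_j) / p`) have ALL their `r` coordinates isolated on the record scale:
no prime lies at distance at most `κ log p (log₂ p)² log₄ p / (log₃ p)²` of any of the coordinates.  The
constants do not depend on the coefficients.

For example, for every `n ≥ 2` and all large `p` Fermat's congruence `x^n + y^n = z^n` modulo `p` has at
least `p^(2 - ε)` solutions `0 ≤ x, y, z < p` with all three unknowns isolated on the record scale, and
they can be found in all boxes of volume `p^(5/2 + ε)`.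

Proof (`Pool.Agent.Q20.RG`): Weil's bound for additive character sums of polynomials (starting
library, `Pool.Agent.Y951.WP.weil_le`) in every variable, completion in `r` coordinates and helper46's
form (`Pool.Agent.Q46.MH.crit_many`) of the covering criterion for vectors of integers of the starting
repository (`Pool.Agent.Y961.JR.critJ`).
-/

set_option autoImplicit false

namespace Pool.Agent.Results.MP_b0c12c_nt.AdditiveCongruences

open Polynomial

/-- the record scale `log x (log₂ x)² log₄ x / (log₃ x)²` -/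
noncomputable def scale (x : ℝ) : ℝ :=
  Real.log x * (Real.log (Real.log x)) ^ 2 * Real.log (Real.log (Real.log (Real.log x))) /
    (Real.log (Real.log (Real.log x))) ^ 2

/-- no prime at distance at most `K` of `n` -/
def Isolated (K : ℝ) (n : ℕ) : Prop := ∀ q : ℕ, q.Prime → K < |(q : ℝ) - n|

/-- **Isolated solutions of additive congruences.** For `r ≥ 3`, all `D`, all large primes `p`, all integer
polynomials `f j`, `j < r`, of degrees between `2` and `D` with leading coefficients prime to `p` and all
boxes of intervals `[A j, A j + N j)` in `[0, p)` of lengths at least `p^ε` and with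
`∏ N j ≥ p^(r/2 + 1 + ε)`, at least `(∏ N j) p^(-1 - ε)` vectors `z` of natural numbers in the box satisfy
`∑ f j (z j) = 0` modulo `p` and have all their coordinates isolated on the record scale. -/
theorem result : ∀ r D : ℕ, 3 ≤ r → ∀ ε : ℝ, 0 < ε → ε ≤ 1 →
    ∃ κ : ℝ, 0 < κ ∧ ∃ p₀ : ℕ, ∀ p : ℕ, p₀ ≤ p → p.Prime →
    ∀ f : Fin r → ℤ[X], (∀ j, 2 ≤ (f j).natDegree ∧ (f j).natDegree ≤ D) →
    (∀ j, ¬ (p : ℤ) ∣ (f j).leadingCoeff) →
    ∀ A N : Fin r → ℕ, (∀ j, A j + N j ≤ p) → (∀ j, (p : ℝ) ^ ε ≤ N j) →
      (p : ℝ) ^ ((r : ℝ) / 2 + 1 + ε) ≤ ∏ j, (N j : ℝ) →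
      ∃ G : Finset (Fin r → ℕ),
        (∏ j, (N j : ℝ)) * (p : ℝ) ^ (-1 - ε) ≤ G.card ∧
        ∀ z ∈ G, (∀ j, A j ≤ z j ∧ z j < A j + N j) ∧ (p : ℤ) ∣ ∑ j, (f j).eval (z j : ℤ) ∧
          ∀ j, Isolated (κ * scale p) (z j) :=
  fun r D hr ε h0 h1 => Pool.Agent.Q20.RG.addmain r D hr ε h0 h1

end Pool.Agent.Results.MP_b0c12c_nt.AdditiveCongruences
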