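import Pool.Agent.Q20.RG.MatProd

/-!
# Record prime gaps around all the entries of the products of matrices from two arbitrary sets

Let `l, m, n ≥ 1` and `0 < ε ≤ 1`.  There is `κ > 0` such that for all large primes `p`, ARBITRARY sets
`𝒜` of `l × m` matrices and `ℬ` of `m × n` matrices over the field with `p` elements and all boxes
`∏ [A_ij, A_ij + N_ij)` in `[0, p)^(l × n)` with all `N_ij ≥ p^ε` and

`|𝒜| |ℬ| (∏ N_ij)² ≥ p^(2 l n + l m + m n - m + ε)`

(for the whole cube: `|𝒜| |ℬ| ≥ p^(l m + m n - m + ε)`), for at least `|𝒜| |ℬ| (∏ N_ij / p) p^(-ε)` of the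
pairs `(A, B)` in `𝒜 × ℬ` the least residues of all the `l n` entries of the product `A B` lie in the
box and are isolated on the record scale: no prime lies at distance at most
`κ log p (log₂ p)² log₄ p / (log₃ p)²` of any of them.

For `l = n = 1` these are the dot products of `MP_ff81b6_nt.DistancesOverPrimeFields` of helper46 (there
also with additional functions).  A condition of this shape is natural: for a fixed nonzero vector `h`
the set `ℬ` of the matrices `B` with `B h = 0` has `p^(m n - m)` elements, and the entries of all products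
`A B` with `B` in `ℬ` satisfy the linear equations `A B h = 0`.

Proof (`Pool.Agent.Q20.RG`): a bound for the bilinear exponential sums over `𝒜 × ℬ` by the
orthogonality of the characters of the matrices, completion in `l n` coordinates and helper46's form
(`Pool.Agent.Q46.MH.crit_many`) of the covering criterion for vectors of integers of the starting
repository (`Pool.Agent.Y961.JR.critJ`).
-/

set_option autoImplicit false

namespace Pool.Agent.Results.MP_3bc45c_nt.ProductsOfMatrices

/-- the record scale `log x (log₂ x)² log₄ x / (log₃ x)²` -/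
noncomputable def scale (x : ℝ) : ℝ :=
  Real.log x * (Real.log (Real.log x)) ^ 2 * Real.log (Real.log (Real.log (Real.log x))) /
    (Real.log (Real.log (Real.log x))) ^ 2

/-- no prime at distance at most `K` of `n` -/
def Isolated (K : ℝ) (n : ℕ) : Prop := ∀ q : ℕ, q.Prime → K < |(q : ℝ) - n|

/-- **Isolated entries of products of matrices.** For `l, n ≥ 1`, all `m`, all large primes `p`, all sets
`𝒜`, `ℬ` of `l × m` and `m × n` matrices over `ZMod p` and all boxes of intervals
`[A i j, A i j + N i j)` in `[0, p)` with `N i j ≥ p^ε` and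
`(∏ N i j)² |𝒜| |ℬ| ≥ p^(2 l n + l m + m n - m + ε)`, a proportion at least `(∏ N i j) / p^(l n) p^(-ε)` of
the pairs `z` in `𝒜 × ℬ` has the least residues of all the entries of the product in the box and
isolated on the record scale. -/
theorem result : ∀ l m n : ℕ, 1 ≤ l → 1 ≤ n → ∀ ε : ℝ, 0 < ε → ε ≤ 1 →
    ∃ κ : ℝ, 0 < κ ∧ ∃ p₀ : ℕ, ∀ p : ℕ, p₀ ≤ p → ∀ [Fact p.Prime],
    ∀ (𝒜 : Finset (Matrix (Fin l) (Fin m) (ZMod p))) (ℬ : Finset (Matrix (Fin m) (Fin n) (ZMod p)))
      (A N : Fin l → Fin n → ℕ), (∀ i j, A i j + N i j ≤ p) → (∀ i j, (p : ℝ) ^ ε ≤ N i j) →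
      (p : ℝ) ^ (2 * (l : ℝ) * n + l * m + m * n - m + ε) ≤
        (∏ i, ∏ j, (N i j : ℝ)) ^ 2 * 𝒜.card * ℬ.card →
      ∃ G ⊆ 𝒜 ×ˢ ℬ, (∏ i, ∏ j, (N i j : ℝ)) / (p : ℝ) ^ (l * n) * (p : ℝ) ^ (-ε) *
          (𝒜.card * ℬ.card) ≤ G.card ∧
        ∀ z ∈ G, ∀ i j, (A i j ≤ ((z.1 * z.2) i j).val ∧ ((z.1 * z.2) i j).val < A i j + N i j) ∧
          Isolated (κ * scale p) ((z.1 * z.2) i j).val :=
  fun l m n hl hn ε h0 h1 => Pool.Agent.Q20.RG.prodmain l m n hl hn ε h0 h1

end Pool.Agent.Results.MP_3bc45c_nt.ProductsOfMatrices
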